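import Pool.Agent.H41.ST.Rel
import Pool.Agent.H94.VK.MVM
import Pool.Agent.H54.VK.RTR

/-!
# The group generated by swaps and local automorphisms
-/

set_option autoImplicit false

open Set Pool.Agent.TK

namespace Pool.Agent.H41.ST

open Pool.Agent.H71.VK Pool.Agent.H94.VK

variable {C : Type}

/-- `f` is an automorphism which moves only points of one component whose type is in `T` -/
def IsLA (T : Set (Fl C)) (M : St C) (f : Equiv.Perm ℕ) : Prop :=
  IsoH f M M ∧ ∃ (s : List ℕ) (D : Set ℕ), IsCp M (ms s) D ∧ InT T M s D ∧ ∀ x, x ∉ D → f x = x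

/-- the generators -/
def IsGen (T : Set (Fl C)) (M : St C) (f : Equiv.Perm ℕ) : Prop := IsSwap T M f ∨ IsLA T M f

/-- the group generated by the swaps and the local automorphisms -/
def N1 (T : Set (Fl C)) (M : St C) : Subgroup (Equiv.Perm ℕ) :=
  Subgroup.closure {f | IsGen T M f}

/-- a move of a list by a local automorphism -/
def MvA (T : Set (Fl C)) (M : St C) (l m : List ℕ) : Prop := ∃ f, IsLA T M f ∧ l.map f = m

/-- a move -/
def Mv1 (T : Set (Fl C)) (M : St C) (l m : List ℕ) : Prop := Mv T M l m ∨ MvA T M l m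

lemma n1_le (T : Set (Fl C)) (M : St C) : N1 T M ≤ AutG M := by
  unfold N1
  rw [Subgroup.closure_le]
  rintro f (hf | hf)
  · exact hf.1
  · exact hf.1

lemma isLA_inv {T : Set (Fl C)} {M : St C} {f : Equiv.Perm ℕ} (h : IsLA T M f) :
    IsLA T M f⁻¹ := by
  obtain ⟨h1, s, D, h2, h3, h4⟩ := h
  refine ⟨isoH_inv h1, s, D, h2, h3, fun x hx => ?_⟩
  change f.symm x = x
  rw [Equiv.symm_apply_eq, h4 x hx]

lemma mv1_symm {T : Set (Fl C)} {M : St C} {l m : List ℕ} (h : Mv1 T M l m) : Mv1 T M m l := by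
  rcases h with ⟨f, hf, rfl⟩ | ⟨f, hf, rfl⟩
  · refine Or.inl ⟨f, hf, ?_⟩
    rw [List.map_map]
    have : (f ∘ f : ℕ → ℕ) = id := funext hf.2.1
    rw [this, List.map_id]
  · exact Or.inr ⟨f⁻¹, isLA_inv hf, (map_map_inv f l).2⟩

/-- the orbit relation is generated by the moves -/
theorem relN1_iff (T : Set (Fl C)) (M : St C) (l m : List ℕ) :
    RelN (N1 T M) l m ↔ Relation.ReflTransGen (Mv1 T M) l m := by
  constructor
  · rintro ⟨n, hn, rfl⟩
    unfold N1 at hn
    revert l
    induction hn using Subgroup.closure_induction with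
    | mem x hx =>
      intro l
      rcases hx with hx | hx
      · exact Relation.ReflTransGen.single (Or.inl ⟨x, hx, rfl⟩)
      · exact Relation.ReflTransGen.single (Or.inr ⟨x, hx, rfl⟩)
    | one =>
      intro l
      have : l.map (1 : Equiv.Perm ℕ) = l := by simp
      rw [this]
    | mul x y _ _ hx hy =>
      intro l
      have : l.map (x * y : Equiv.Perm ℕ) = (l.map y).map x := by
        rw [List.map_map, ← Equiv.Perm.coe_mul]
      rw [this]
      exact (hy l).trans (hx (l.map y))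
    | inv x _ hx =>
      intro l
      have h1 := hx (l.map (x⁻¹ : Equiv.Perm ℕ))
      rw [(map_map_inv x l).1] at h1
      have hs' : ∀ a b, Relation.ReflTransGen (Mv1 T M) a b →
          Relation.ReflTransGen (Mv1 T M) b a := by
        intro a b hab
        induction hab with
        | refl => exact Relation.ReflTransGen.refl
        | tail _ h2 ih => exact (Relation.ReflTransGen.single (mv1_symm h2)).trans ih
      exact hs' _ _ h1
  · intro h
    induction h with
    | refl => exact ⟨1, one_mem _, by simp⟩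
    | tail _ h2 ih =>
      obtain ⟨n, hn, rfl⟩ := ih
      rcases h2 with ⟨f, hf, rfl⟩ | ⟨f, hf, rfl⟩
      · refine ⟨f * n, mul_mem (Subgroup.subset_closure (Or.inl hf)) hn, ?_⟩
        rw [List.map_map, ← Equiv.Perm.coe_mul]
      · refine ⟨f * n, mul_mem (Subgroup.subset_closure (Or.inr hf)) hn, ?_⟩
        rw [List.map_map, ← Equiv.Perm.coe_mul]

/-! ### local automorphism moves are Borel -/

/-- the data of a local automorphism move -/
abbrev DatA := List ℕ × ℕ × List ℕ × List ℕ × List ℕ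

/-- the condition which describes a local automorphism move with type `t` -/
def CondA (t : Fl C) (d : DatA) (l m : List ℕ) (M : St C) : Prop :=
  d.2.1 ∉ ms d.1 ∧ l.length = m.length ∧
  (∀ z ∈ d.2.2.1, z ∈ cp M (ms d.1) d.2.1) ∧ (∀ z ∈ d.2.2.2.1, z ∈ cp M (ms d.1) d.2.1) ∧
  d.2.2.1.length = d.2.2.2.1.length ∧ d.2.2.1.length = d.2.2.2.2.length ∧
  FI M (d.1 ++ d.2.2.1) (cp M (ms d.1) d.2.1) t.1 (t.2.1 ++ d.2.2.2.2) t.set ∧
  FI M (d.1 ++ d.2.2.2.1) (cp M (ms d.1) d.2.1) t.1 (t.2.1 ++ d.2.2.2.2) t.set ∧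
  ∀ p ∈ l.zip m, p ∈ d.2.2.1.zip d.2.2.2.1 ∨ (p.1 = p.2 ∧ p.1 ∉ cp M (ms d.1) d.2.1)

/-- the condition is necessary -/
theorem condA_of_mv {T : Set (Fl C)} {M : St C} {l m : List ℕ}
    (h : MvA T M l m) : ∃ t ∈ T, ∃ d : DatA, CondA t d l m M := by
  classical
  obtain ⟨f, ⟨hf, s, D, hD, ⟨t, ht, h0, H0⟩, hfix⟩, rfl⟩ := h
  obtain ⟨v, hv, hvD⟩ := hD
  have hDc : IsCp M (ms s) D := ⟨v, hv, hvD⟩
  have hfs : ∀ z ∈ s, f z = z := fun z hz =>
    hfix z (fun h => Set.disjoint_left.1 hDc.disj h hz)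
  have hmem : ∀ a ∈ D, f a ∈ D := by
    intro a ha
    by_contra hcon
    have h1 := hfix _ hcon
    have h2 : f a = a := f.injective h1
    rw [h2] at hcon
    exact hcon ha
  have hfD : f '' D = D := by
    ext x
    constructor
    · rintro ⟨y, hy, rfl⟩
      exact hmem y hy
    · intro hx
      by_cases h1 : f.symm x ∈ D
      · exact ⟨f.symm x, h1, f.apply_symm_apply x⟩
      · have h2 := hfix _ h1
        rw [f.apply_symm_apply] at h2
        rw [← h2] at h1
        exact absurd hx h1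
  set u : List ℕ := l.filter (fun z => decide (z ∈ D)) with hu
  have huD : ∀ z ∈ u, z ∈ D := by
    intro z hz
    rw [hu, List.mem_filter] at hz
    simpa using hz.2
  have huD' : ∀ z ∈ u.map f, z ∈ D := by
    intro z hz
    obtain ⟨w, hw, rfl⟩ := List.mem_map.1 hz
    exact hmem w (huD w hw)
  have F1 : FI M (s ++ u) D t.1 (t.2.1 ++ u.map h0) t.set := ⟨h0, fih_add H0 u huD⟩
  have F2 : FI M (s ++ u.map f) D M (s ++ u) D :=
    (show FI M (s ++ u) D M (s ++ u.map f) D from ⟨_, fih_add (isoH_fih hf hfs hfD) u huD⟩).symm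
  have F3 := F2.trans F1
  refine ⟨t, ht, (s, v, u, u.map f, u.map h0), hv, ?_, ?_, ?_, ?_, ?_, ?_, ?_, ?_⟩
  · exact (List.length_map _).symm
  · change ∀ z ∈ u, z ∈ cp M (ms s) v
    rw [← hvD]
    exact huD
  · change ∀ z ∈ u.map f, z ∈ cp M (ms s) v
    rw [← hvD]
    exact huD'
  · exact (List.length_map _).symm
  · exact (List.length_map _).symm
  · change FI M (s ++ u) (cp M (ms s) v) t.1 (t.2.1 ++ u.map h0) t.set
    rw [← hvD]
    exact F1
  · change FI M (s ++ u.map f) (cp M (ms s) v) t.1 (t.2.1 ++ u.map h0) t.set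
    rw [← hvD]
    exact F3
  · intro p hp
    change p ∈ u.zip (u.map f) ∨ (p.1 = p.2 ∧ p.1 ∉ cp M (ms s) v)
    rw [← hvD, ← zip_map_eq]
    rw [← zip_map_eq] at hp
    obtain ⟨a, ha, rfl⟩ := List.mem_map.1 hp
    simp only
    by_cases h1 : a ∈ D
    · refine Or.inl (List.mem_map.2 ⟨a, ?_, rfl⟩)
      rw [hu, List.mem_filter]
      exact ⟨ha, by simpa using h1⟩
    · exact Or.inr ⟨(hfix a h1).symm, h1⟩

/-- gluing a local automorphism -/
theorem exists_la {c0 : C} {M : St C} (hM : Valid c0 M) {s : List ℕ} {D : Set ℕ}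
    (hD : IsCp M (ms s) D) {g : ℕ → ℕ} (hg : FIh g M s D M s D) :
    ∃ f : Equiv.Perm ℕ, IsoH f M M ∧ (∀ a ∈ D, f a = g a) ∧ ∀ x, x ∉ D → f x = x := by
  classical
  obtain ⟨-, hb, hPI⟩ := hg
  let e : D ≃ D := hb.equiv g
  let f : Equiv.Perm ℕ := Equiv.Perm.ofSubtype (p := fun x => x ∈ D) e
  have f1 : ∀ a ∈ D, f a = g a := fun a ha => by
    have := Equiv.Perm.ofSubtype_apply_of_mem (p := fun x => x ∈ D) e ha
    exact this
  have f2 : ∀ x, x ∉ D → f x = x := fun x hx => Equiv.Perm.ofSubtype_apply_of_not_mem _ hx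
  refine ⟨f, ?_, f1, f2⟩
  have hgD : ∀ x ∈ D, f x ∈ D := fun x hx => by
    rw [f1 x hx]
    exact hb.mapsTo hx
  have hdisj := Set.disjoint_left.1 hD.disj
  have fS : ∀ x ∈ s, f x = x := fun x hx => f2 x fun h => hdisj h hx
  have hnb : ∀ u v, u ∈ D → M.1 u v = true → v ∈ D ∨ v ∈ s := by
    intro u v hu huv
    by_contra hcon
    push Not at hcon
    have : v ∈ Nb M D := ⟨hcon.1, u, hu, by rw [hM.1]; exact huv⟩
    exact hcon.2 (hD.nb hM this)
  have hcross : ∀ u v, u ∈ D → ¬ (v ∈ D ∨ v ∈ s) → M.1 u v = false := by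
    intro u v hu hv
    by_contra hcon
    rw [Bool.not_eq_false] at hcon
    exact hv (hnb u v hu hcon)
  -- a list in `D ∪ s` gives a partial isomorphism
  have hPI' : ∀ q : List ℕ, (∀ z ∈ q, z ∈ D ∨ z ∈ s) → PI M M (q.map fun z => (z, f z)) := by
    intro q hq
    refine (hPI (q.filter fun z => decide (z ∈ D)) (by
      intro z hz
      rw [List.mem_filter] at hz
      simpa using hz.2)).mono ?_
    intro z hz
    obtain ⟨w, hw, rfl⟩ := List.mem_map.1 hz
    rw [List.mem_append]
    rcases hq w hw with h | h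
    · right
      refine List.mem_map.2 ⟨w, ?_, by rw [f1 w h]⟩
      rw [List.mem_filter]
      exact ⟨hw, by simpa using h⟩
    · left
      rw [← dg_eq_zip, mem_dg]
      exact ⟨(fS w h).symm, h⟩
  refine ⟨fun u v => ?_, fun l => ?_⟩
  · by_cases hu : u ∈ D
    · by_cases hv : v ∈ D ∨ v ∈ s
      · have h1 := (hPI' [u, v] (by
          intro z hz
          simp only [List.mem_cons, List.not_mem_nil, or_false] at hz
          rcases hz with rfl | rfl
          · exact Or.inl hu
          · exact hv)).2.1 (u, f u) (by simp) (v, f v) (by simp)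
        exact h1
      · rw [hcross u v hu hv, f2 v fun h => hv (Or.inl h), hcross _ v (hgD u hu) hv]
    · by_cases hv : v ∈ D
      · by_cases hu' : u ∈ s
        · have h1 := (hPI' [u, v] (by
            intro z hz
            simp only [List.mem_cons, List.not_mem_nil, or_false] at hz
            rcases hz with rfl | rfl
            · exact Or.inr hu'
            · exact Or.inl hv)).2.1 (u, f u) (by simp) (v, f v) (by simp)
          exact h1
        · have hu'' : ¬ (u ∈ D ∨ u ∈ s) := fun h => h.elim hu hu'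
          rw [hM.1 u v, hcross v u hv hu'', f2 u hu, hM.1, hcross _ u (hgD v hv) hu'']
      · rw [f2 u hu, f2 v hv]
  · by_cases hl : ∃ u ∈ l, u ∈ D
    · obtain ⟨u, hul, hu⟩ := hl
      by_cases hl' : ∀ x ∈ l, x ∈ D ∨ x ∈ s
      · have h1 := (hPI' l hl').2.2 (l.map fun z => (z, f z)) fun z hz => hz
        rw [List.map_map, List.map_map] at h1
        have e1 : (Prod.fst ∘ fun z => (z, f z)) = (id : ℕ → ℕ) := rfl
        have e2 : (Prod.snd ∘ fun z => (z, f z)) = f := rfl
        rw [e1, e2, List.map_id] at h1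
        exact h1
      · push Not at hl'
        obtain ⟨w, hwl, hw1, hw2⟩ := hl'
        have hw : ¬ (w ∈ D ∨ w ∈ s) := fun h => h.elim hw1 hw2
        have e1 : M.2 l = c0 := by
          by_contra hcon
          have := hM.2.2 l hcon u hul w hwl (fun h => hw1 (h ▸ hu))
          rw [hcross u w hu hw] at this
          exact Bool.false_ne_true this
        have e2 : M.2 (l.map f) = c0 := by
          by_contra hcon
          have hgw : f w = w := f2 w hw1
          have := hM.2.2 (l.map f) hcon (f u) (List.mem_map_of_mem hul) (f w)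
            (List.mem_map_of_mem hwl) (fun h => by
              rw [hgw] at h
              exact hw1 (h ▸ hgD u hu))
          rw [hgw, hcross (f u) w (hgD u hu) hw] at this
          exact Bool.false_ne_true this
        rw [e1, e2]
    · push Not at hl
      have : l.map f = l := by
        conv_rhs => rw [← List.map_id l]
        exact List.map_congr_left fun x hx => f2 x (hl x hx)
      rw [this]

/-- the condition is sufficient -/
theorem mvA_of_cond {c0 : C} {T : Set (Fl C)} {M : St C} (hM : Valid c0 M)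
    {l m : List ℕ} {t : Fl C} (ht : t ∈ T) {d : DatA} (h : CondA t d l m M) : MvA T M l m := by
  obtain ⟨s, v, u, u', w⟩ := d
  obtain ⟨hv, hlm, hu, hu', huu, huw, F1, F2, hp⟩ := h
  simp only at hv hu hu' huu huw F1 F2 hp
  have hst : s.length = t.2.1.length := by
    have := F1.length
    rw [List.length_append, List.length_append] at this
    omega
  obtain ⟨g, F3⟩ := F1.trans F2.symm
  obtain ⟨F4, hg⟩ := fih_rem rfl hu F3
  have hD : IsCp M (ms s) (cp M (ms s) v) := isCp_cp hv
  obtain ⟨f, hf, hfg, hfix⟩ := exists_la hM hD F4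
  obtain ⟨h1, H1⟩ := F1
  refine ⟨f, ⟨hf, s, _, hD, ⟨t, ht, h1, (fih_rem hst hu H1).1⟩, hfix⟩, ?_⟩
  have key : ∀ p ∈ l.zip m, f p.1 = p.2 := by
    intro p hpm
    rcases hp p hpm with h | ⟨h2, h3⟩
    · rw [hfg _ (hu _ (List.of_mem_zip h).1)]
      exact hg p h
    · rw [hfix _ h3]
      exact h2
  clear hp
  revert m
  induction l with
  | nil =>
    intro m hlm _
    cases m with
    | nil => rfl
    | cons b m => simp at hlm
  | cons a l ih =>
    intro m hlm key
    cases m with
    | nil => simp at hlm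
    | cons b m =>
      rw [List.map_cons]
      congr 1
      · exact key (a, b) (by simp)
      · exact ih (by simpa using hlm) fun p hp => key p (by
          rw [List.zip_cons_cons]
          exact List.mem_cons_of_mem _ hp)

theorem meas_condA [MeasurableSpace C] [StandardBorelSpace C] (hFIM : FIM C) (t : Fl C)
    (d : DatA) (l m : List ℕ) : MeasurableSet {M : St C | CondA t d l m M} := by
  have hmem : ∀ (A : Set ℕ) (v z : ℕ), MeasurableSet {M : St C | z ∈ cp M A v} := fun A v z =>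
    meas_conn A v z
  have hall : ∀ (u : List ℕ) (A : Set ℕ) (v : ℕ),
      MeasurableSet {M : St C | ∀ z ∈ u, z ∈ cp M A v} := by
    intro u A v
    have : {M : St C | ∀ z ∈ u, z ∈ cp M A v} = ⋂ z ∈ ms u, {M : St C | z ∈ cp M A v} := by
      ext M
      simp only [mem_ofPred_eq, mem_iInter, mem_ms]
    rw [this]
    exact MeasurableSet.biInter (to_countable _) fun z _ => hmem A v z
  unfold CondA
  refine (MeasurableSet.const _).inter ((MeasurableSet.const _).inter
    ((hall _ _ _).inter ((hall _ _ _).inter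
    ((MeasurableSet.const _).inter ((MeasurableSet.const _).inter ((hFIM _ _ _ _ _ _).inter
    ((hFIM _ _ _ _ _ _).inter ?_)))))))
  have : {M : St C | ∀ p ∈ l.zip m, p ∈ d.2.2.1.zip d.2.2.2.1 ∨
      (p.1 = p.2 ∧ p.1 ∉ cp M (ms d.1) d.2.1)} =
      ⋂ p ∈ {p | p ∈ l.zip m}, {M : St C | p ∈ d.2.2.1.zip d.2.2.2.1 ∨
      (p.1 = p.2 ∧ p.1 ∉ cp M (ms d.1) d.2.1)} := by
    ext M
    simp only [mem_ofPred_eq, mem_iInter]
  change MeasurableSet {M : St C | ∀ p ∈ l.zip m, p ∈ d.2.2.1.zip d.2.2.2.1 ∨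
      (p.1 = p.2 ∧ p.1 ∉ cp M (ms d.1) d.2.1)}
  rw [this]
  refine MeasurableSet.biInter (to_countable _) fun p _ => ?_
  exact (MeasurableSet.const _).union ((MeasurableSet.const _).inter (hmem _ _ _).compl)

theorem mvAM {c0 : C} [MeasurableSpace C] [StandardBorelSpace C] (hFIM : FIM C)
    (T : Set (Fl C)) (hT : T.Countable) (l m : List ℕ) :
    MeasurableSet {M : St C | Valid c0 M ∧ MvA T M l m} := by
  have h : {M : St C | Valid c0 M ∧ MvA T M l m} = {M : St C | Valid c0 M} ∩
      ⋃ t ∈ T, ⋃ d : DatA, {M : St C | CondA t d l m M} := by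
    ext M
    simp only [mem_inter_iff, mem_ofPred_eq, mem_iUnion, exists_prop]
    constructor
    · rintro ⟨h1, h2⟩
      exact ⟨h1, condA_of_mv h2⟩
    · rintro ⟨h1, t, ht, d, h2⟩
      exact ⟨h1, mvA_of_cond h1 ht h2⟩
  rw [h]
  exact (meas_valid c0).inter (MeasurableSet.biUnion hT fun t _ =>
    MeasurableSet.iUnion fun d => meas_condA hFIM t d l m)

/-- the orbit relation is Borel -/
theorem rlm1 {c0 : C} [MeasurableSpace C] [StandardBorelSpace C] (hSWG : SWG C c0) (hFIM : FIM C)
    (T : Set (Fl C)) (hT : T.Countable) (l m : List ℕ) :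
    MeasurableSet {M : St C | Valid c0 M ∧ RelN (N1 T M) l m} := by
  have h : {M : St C | Valid c0 M ∧ RelN (N1 T M) l m} = {M : St C | Valid c0 M} ∩
      {M : St C | Relation.ReflTransGen (fun l m => Valid c0 M ∧ Mv1 T M l m) l m} := by
    ext M
    simp only [mem_inter_iff, mem_ofPred_eq]
    constructor
    · rintro ⟨h1, h2⟩
      refine ⟨h1, ?_⟩
      rw [relN1_iff T M l m] at h2
      exact Relation.ReflTransGen.mono (r := Mv1 T M) (p := fun l m => Valid c0 M ∧ Mv1 T M l m)
        (fun _ _ hs => ⟨h1, hs⟩) _ _ h2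
    · rintro ⟨h1, h2⟩
      refine ⟨h1, ?_⟩
      rw [relN1_iff T M l m]
      exact Relation.ReflTransGen.mono (r := fun l m => Valid c0 M ∧ Mv1 T M l m) (p := Mv1 T M)
        (fun _ _ hs => hs.2) _ _ h2
  rw [h]
  refine (meas_valid c0).inter (meas_rtg _ (fun l m => ?_) l m)
  have h3 : {M : St C | Valid c0 M ∧ Mv1 T M l m} = {M : St C | Valid c0 M ∧ Mv T M l m} ∪
      {M : St C | Valid c0 M ∧ MvA T M l m} := by
    ext M
    simp only [mem_union, mem_ofPred_eq, Mv1]
    tauto
  rw [h3]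
  exact (pf_MVM hSWG hFIM T hT l m).union (mvAM hFIM T hT l m)

/-! ### transport -/

lemma isLA_conj {c0 : C} (hITR : ITR C c0) {T : Set (Fl C)} {M N : St C} {h f : Equiv.Perm ℕ}
    (hh : IsoH h M N) (hf : IsLA T M f) : IsLA T N (h * f * h⁻¹) := by
  obtain ⟨h1, s, D, h3, ⟨t, ht, hF⟩, h8⟩ := hf
  obtain ⟨i1, -, i3, -⟩ := hITR h M N hh
  have hms : ms (s.map h) = h '' ms s := by
    ext x
    rw [mem_ms, List.mem_map]
    rfl
  refine ⟨RTRaux.isoH_conj hh h1, s.map h, h '' D, ?_, ?_, ?_⟩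
  · rw [hms]; exact i1 _ _ h3
  · exact ⟨t, ht, (i3 s D).symm.trans hF⟩
  · intro x hx
    have k1 : h⁻¹ x ∉ D := fun hk => hx ⟨h⁻¹ x, hk, by simp⟩
    have := h8 _ k1
    rw [Equiv.Perm.mul_apply, Equiv.Perm.mul_apply, this]
    exact h.apply_symm_apply x

theorem rtr1 {c0 : C} (hITR : ITR C c0) {T : Set (Fl C)} {M N : St C} {h : Equiv.Perm ℕ}
    (hh : IsoH h M N) (l m : List ℕ) (hR : RelN (N1 T M) l m) :
    RelN (N1 T N) (l.map h) (m.map h) := by
  obtain ⟨n, hn, rfl⟩ := hR
  have key : N1 T M ≤ (N1 T N).comap (MulAut.conj h).toMonoidHom := by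
    rw [N1, Subgroup.closure_le]
    rintro f (hf | hf)
    · exact Subgroup.subset_closure (Or.inl (RTRaux.isSwap_conj hITR hh hf))
    · exact Subgroup.subset_closure (Or.inr (isLA_conj hITR hh hf))
  refine ⟨h * n * h⁻¹, key hn, ?_⟩
  rw [List.map_map, List.map_map]
  apply List.map_congr_left
  intro a _
  simp [Equiv.Perm.mul_apply]

end Pool.Agent.H41.ST
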