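import Pool.Agent.H41.ST.GEN1
import Pool.Agent.H16.TK.BF

/-!
# The structure theorem from part (a) and the divisible ends
-/

set_option autoImplicit false

open Set Pool.Agent.TK

namespace Pool.Agent.H41.ST

open Pool.Agent.H71.VK Pool.Agent.H71.ST

theorem final_of_sta {C : Type} {c0 : C} [MeasurableSpace C] [StandardBorelSpace C]
    (hSWG : SWG C c0) (hFIM : FIM C) (hITR : ITR C c0) (hLOP : LOP C) (hNFM : NFM C)
    (hTYC : TYC C) (hSTA : Pool.Agent.H71.ST.STA C c0) : FINAL C c0 := by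
  intro X hX hval hinv
  by_cases hP : Perf X
  · exact Or.inl hP
  obtain ⟨b0, hb0⟩ := hLOP X hX hinv
  obtain ⟨b, hb, hbase⟩ : ∃ b : Rk, RLe C b0 b ∧ RLe C (Rk.lim (Rk.lim om)) b :=
    ⟨Sh (Rk.lim (Rk.lim om)) b0, RLe.sh_right _ _, RLe.sh_left _ _⟩
  have hyp : Hyp c0 b X :=
    { val := hval
      cl := fun M hM M' h => hb0 M hM M' (hb _ _ _ _ _ h)
      tc := hTYC X hX hinv hP
      nf := hNFM X hP
      base := hbase }
  obtain ⟨O, hO, T0, hT0, hM⟩ := hSTA b X hyp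
  rcases gen1 (c0 := c0) hSWG hFIM hITR O hO X hX hval
    (fun M => (∃ N ∈ T0, Iso M N) ∨ ∃ Wd, EndsW O M Wd ∧ ∃ w ∈ Wd, DivE M w) (by
      intro M hMX ν φ hF hdiv
      rcases hM M hMX with h | ⟨Wd, hE⟩
      · exact Or.inl h
      · exact Or.inr ⟨Wd, hE, stb hSWG hITR O M (hval M hMX) Wd hE ν φ hF hdiv⟩)
    with h | h | h
  · exact Or.inl h
  · exact Or.inr (Or.inl h)
  · refine Or.inr (Or.inr ⟨O, hO, ⟨T0, hT0, fun M hMX hno => ?_⟩, ?_⟩)
    · rcases hM M hMX with h1 | h1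
      · exact h1
      · exact absurd h1 hno
    · rintro ⟨T1, hT1, h1⟩
      apply h
      refine ⟨T0 ∪ T1, hT0.union hT1, fun M hMX hPM => ?_⟩
      rcases hPM with ⟨N, hN, h2⟩ | h2
      · exact ⟨N, Or.inl hN, h2⟩
      · obtain ⟨N, hN, h3⟩ := h1 M hMX h2
        exact ⟨N, Or.inr hN, h3⟩

end Pool.Agent.H41.ST
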