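import Pool.Agent.H94.VK.FLX
import Pool.Agent.H94.VK.FLI

/-!
# Quotient structures for an arbitrary group of automorphisms

The orbit relation on lists of a group `N` of automorphisms of a structure, the quotient structure
and correspondences: all the facts needed, for an arbitrary group `N`.
-/

set_option autoImplicit false

open Set Pool.Agent.TK

namespace Pool.Agent.H41.ST

open Pool.Agent.H71.VK Pool.Agent.H94.VK

variable {C : Type}

/-- two lists are in the same orbit of the group `N` -/
def RelN (N : Subgroup (Equiv.Perm ℕ)) (l m : List ℕ) : Prop := ∃ n ∈ N, l.map n = m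

open Classical in
/-- `ν` is an enumeration of the orbits of lists and `φ` is the structure coded with it -/
structure FlatN (N : Subgroup (Equiv.Perm ℕ)) (M : St C) (ν : List ℕ → ℕ) (φ : Y C) : Prop where
  surj : Function.Surjective ν
  ker : ∀ l m, ν l = ν m ↔ RelN N l m
  val : ∀ l j, φ (ν l) j = (cval M l, l.length, fun π => decide (ν (reindex π l) = j))

/-- correspondences between the orbits of lists of `M` and of `M'` -/
structure CorrN (N N' : Subgroup (Equiv.Perm ℕ)) (M M' : St C) (R : List ℕ → List ℕ → Prop) :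
    Prop where
  col : ∀ l m, R l m → cval M l = cval M' m
  len : ∀ l m, R l m → l.length = m.length
  ri : ∀ π l m, R l m → R (reindex π l) (reindex π m)
  sat : ∀ l m l' m', R l m → RelN N l l' → RelN N' m m' → R l' m'
  uniq : ∀ l m m', R l m → R l m' → RelN N' m m'
  inj : ∀ l l' m, R l m → R l' m → RelN N l l'
  tot : ∀ l, ∃ m, R l m

theorem relN_equiv (N : Subgroup (Equiv.Perm ℕ)) : Equivalence (RelN N) := by
  refine ⟨fun l => ⟨1, one_mem _, by simp⟩, ?_, ?_⟩
  · rintro l m ⟨n, hn, rfl⟩
    refine ⟨n⁻¹, inv_mem hn, ?_⟩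
    rw [List.map_map, ← Equiv.Perm.coe_mul, inv_mul_cancel]
    simp
  · rintro l m k ⟨n, hn, rfl⟩ ⟨n', hn', rfl⟩
    refine ⟨n' * n, mul_mem hn' hn, ?_⟩
    rw [List.map_map, ← Equiv.Perm.coe_mul]

theorem relN_props {N : Subgroup (Equiv.Perm ℕ)} {M : St C} (hN : N ≤ AutG M) (l m : List ℕ)
    (h : RelN N l m) : cval M l = cval M m ∧ l.length = m.length ∧
      ∀ π, RelN N (reindex π l) (reindex π m) := by
  obtain ⟨n, hn, rfl⟩ := h
  have h : IsoH n M M := hN hn
  refine ⟨(cval_map h l).symm, by simp, fun π => ⟨n, hn, (reindex_map π n l).symm⟩⟩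

/-- the quotient structures exist and depend on the structure in a Borel way -/
theorem flxN [MeasurableSpace C] (Z : Type) [MeasurableSpace Z] (M : Z → St C)
    (N : Z → Subgroup (Equiv.Perm ℕ)) (hM : Measurable M) (hN : ∀ z, N z ≤ AutG (M z))
    (hR : ∀ l m, MeasurableSet {z | RelN (N z) l m}) :
    ∃ (ν : Z → List ℕ → ℕ) (Φ : Z → Y C), Measurable Φ ∧
      ∀ z, FlatN (N z) (M z) (ν z) (Φ z) := by
  classical
  have hRe : ∀ z, Equivalence (RelN (N z)) := fun z => relN_equiv (N z)
  have hRl : ∀ z l m, RelN (N z) l m → cval (M z) l = cval (M z) m ∧ l.length = m.length ∧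
      ∀ π, RelN (N z) (reindex π l) (reindex π m) := fun z => relN_props (hN z)
  let e : ℕ ≃ List ℕ := (Denumerable.eqv (List ℕ)).symm
  -- the least index of a representative
  have hex : ∀ z l, ∃ i, RelN (N z) (e i) l := fun z l => ⟨e.symm l, by
    rw [Equiv.apply_symm_apply]
    exact (hRe z).refl l⟩
  let idx : Z → List ℕ → ℕ := fun z l => Nat.find (hex z l)
  have hidx : ∀ z l, RelN (N z) (e (idx z l)) l := fun z l => Nat.find_spec (hex z l)
  have hmin : ∀ z l i, RelN (N z) (e i) l → idx z l ≤ i := fun z l i h => Nat.find_min' (hex z l) h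
  have hidxeq : ∀ z l m, RelN (N z) l m ↔ idx z l = idx z m := by
    intro z l m
    constructor
    · intro h
      exact le_antisymm (hmin z l _ ((hRe z).trans (hidx z m) ((hRe z).symm h)))
        (hmin z m _ ((hRe z).trans (hidx z l) h))
    · intro h
      have h1 := hidx z l
      rw [h] at h1
      exact (hRe z).trans ((hRe z).symm h1) (hidx z m)
  -- leaders
  let ldr : Z → ℕ → Prop := fun z j => ∀ i < j, ¬ RelN (N z) (e i) (e j)
  have hldr : ∀ z j, ldr z j ↔ idx z (e j) = j := by
    intro z j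
    constructor
    · intro h
      refine le_antisymm (hmin z _ j ((hRe z).refl _)) ?_
      by_contra hcon
      push Not at hcon
      exact h _ hcon (hidx z (e j))
    · intro h i hi hr
      have := hmin z (e j) i hr
      omega
  have hldri : ∀ z l, ldr z (idx z l) := by
    intro z l
    rw [hldr]
    exact (hidxeq z _ _).1 (hidx z l)
  have hinf : ∀ z, (Set.ofPred (ldr z)).Infinite := by
    intro z
    have hinj : Function.Injective fun n : ℕ => idx z (List.replicate n 0) := by
      intro n m h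
      have h1 := (hRl z _ _ ((hidxeq z _ _).2 h)).2.1
      rwa [List.length_replicate, List.length_replicate] at h1
    exact (Set.infinite_range_of_injective hinj).mono (by
      rintro _ ⟨n, rfl⟩
      exact hldri z _)
  let ν : Z → List ℕ → ℕ := fun z l => Nat.count (ldr z) (idx z l)
  let K : Z → ℕ → ℕ := fun z i => Nat.nth (ldr z) i
  have hK1 : ∀ z i, ldr z (K z i) := fun z i => Nat.nth_mem_of_infinite (hinf z) i
  have hK2 : ∀ z i, ν z (e (K z i)) = i := by
    intro z i
    change Nat.count (ldr z) (idx z (e (K z i))) = i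
    rw [(hldr z _).1 (hK1 z i)]
    exact Nat.count_nth_of_infinite (hinf z) i
  have hker : ∀ z l m, ν z l = ν z m ↔ RelN (N z) l m := by
    intro z l m
    rw [hidxeq]
    constructor
    · intro h
      exact Nat.count_injective (hldri z l) (hldri z m) h
    · intro h
      change Nat.count (ldr z) (idx z l) = Nat.count (ldr z) (idx z m)
      rw [h]
  -- measurability
  have mldr : ∀ j, MeasurableSet {z | ldr z j} := by
    intro j
    have : {z | ldr z j} = ⋂ i, {z | i < j → ¬ RelN (N z) (e i) (e j)} := by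
      ext z
      simp only [mem_ofPred_eq, mem_iInter]
      exact Iff.rfl
    rw [this]
    refine MeasurableSet.iInter fun i => ?_
    by_cases hi : i < j
    · have h2 : {z | i < j → ¬ RelN (N z) (e i) (e j)} = {z | RelN (N z) (e i) (e j)}ᶜ := by
        ext z
        simp only [mem_ofPred_eq, mem_compl_iff]
        exact ⟨fun h => h hi, fun h _ => h⟩
      rw [h2]
      exact (hR _ _).compl
    · have h2 : {z | i < j → ¬ RelN (N z) (e i) (e j)} = univ := by
        ext z
        simp only [mem_ofPred_eq, mem_univ, iff_true]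
        exact fun h => absurd h hi
      rw [h2]
      exact MeasurableSet.univ
  have mcount : ∀ k, Measurable fun z => Nat.count (ldr z) k := fun k => meas_count ldr mldr k
  have midx : ∀ l, Measurable fun z => idx z l := by
    intro l
    refine meas_nat _ fun k => ?_
    have h1 : {z | idx z l = k} = {z | ldr z k} ∩ {z | RelN (N z) (e k) l} := by
      ext z
      simp only [mem_ofPred_eq, mem_inter_iff]
      constructor
      · rintro rfl
        exact ⟨hldri z l, hidx z l⟩
      · rintro ⟨h1, h2⟩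
        rw [← (hidxeq z _ _).1 h2]
        exact (hldr z k).1 h1
    rw [h1]
    exact (mldr k).inter (hR _ _)
  have mν : ∀ l, Measurable fun z => ν z l := fun l =>
    meas_idx (fun z k => Nat.count (ldr z) k) mcount (fun z => idx z l) (midx l)
  have mK : ∀ i, Measurable fun z => K z i := by
    intro i
    refine meas_nat _ fun k => ?_
    have h1 : {z | K z i = k} = {z | ldr z k} ∩ {z | Nat.count (ldr z) k = i} := by
      ext z
      simp only [mem_ofPred_eq, mem_inter_iff]
      constructor
      · rintro rfl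
        exact ⟨hK1 z i, Nat.count_nth_of_infinite (hinf z) i⟩
      · rintro ⟨h1, h2⟩
        change Nat.nth (ldr z) i = k
        rw [← h2]
        exact Nat.nth_count h1
    rw [h1]
    exact (mldr k).inter (mcount k (measurableSet_singleton i))
  refine ⟨ν, fun z i j => (cval (M z) (e (K z i)), (e (K z i)).length,
    fun π => decide (ν z (reindex π (e (K z i))) = j)), ?_, fun z => ⟨?_, hker z, ?_⟩⟩
  · refine measurable_pi_iff.2 fun i => measurable_pi_iff.2 fun j => ?_
    refine Measurable.prodMk ?_ (Measurable.prodMk ?_ (measurable_pi_iff.2 fun π => ?_))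
    · exact meas_idx (fun z k => cval (M z) (e k)) (fun k => (meas_cval (e k)).comp hM)
        (fun z => K z i) (mK i)
    · exact meas_idx (fun _ k => (e k).length) (fun k => measurable_const) (fun z => K z i) (mK i)
    · refine meas_idx (fun z k => decide (ν z (reindex π (e k)) = j)) (fun k => ?_)
        (fun z => K z i) (mK i)
      exact meas_dec _ (mν _ (measurableSet_singleton j))
  · intro i
    exact ⟨e (K z i), hK2 z i⟩
  · intro l j
    have h1 : RelN (N z) (e (K z (ν z l))) l := by
      rw [← hker]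
      exact hK2 z (ν z l)
    obtain ⟨h2, h3, h4⟩ := hRl z _ _ h1
    change (cval (M z) (e (K z (ν z l))), (e (K z (ν z l))).length,
      fun π => decide (ν z (reindex π (e (K z (ν z l)))) = j)) = _
    rw [h2, h3]
    congr 2
    funext π
    rw [decide_eq_decide, (hker z _ _).2 (h4 π)]

/-- isomorphic structures have isomorphic quotient structures -/
theorem fliN (N N' : Subgroup (Equiv.Perm ℕ)) (M M' : St C) (ν ν' : List ℕ → ℕ) (φ φ' : Y C)
    (h : Equiv.Perm ℕ) (F : FlatN N M ν φ) (F' : FlatN N' M' ν' φ') (H : IsoH h M M')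
    (h1 : ∀ l m, RelN N l m → RelN N' (l.map h) (m.map h))
    (h2 : ∀ l m, RelN N' l m →
      RelN N (l.map (h⁻¹ : Equiv.Perm ℕ)) (m.map (h⁻¹ : Equiv.Perm ℕ))) :
    ∃ g : Equiv.Perm ℕ, (∀ i j, φ' (g i) (g j) = φ i j) ∧ ∀ l, g (ν l) = ν' (l.map h) := by
  choose s hs using F.surj
  choose s' hs' using F'.surj
  have e1 : ∀ l, ν' ((s (ν l)).map h) = ν' (l.map h) := by
    intro l
    rw [F'.ker]
    exact h1 _ _ ((F.ker _ _).1 (hs (ν l)))
  have e2 : ∀ l, ν ((s' (ν' l)).map (h⁻¹ : Equiv.Perm ℕ)) = ν (l.map (h⁻¹ : Equiv.Perm ℕ)) := by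
    intro l
    rw [F.ker]
    exact h2 _ _ ((F'.ker _ _).1 (hs' (ν' l)))
  let g : Equiv.Perm ℕ :=
    { toFun := fun i => ν' ((s i).map h)
      invFun := fun i => ν ((s' i).map (h⁻¹ : Equiv.Perm ℕ))
      left_inv := by
        intro i
        change ν ((s' (ν' ((s i).map h))).map (h⁻¹ : Equiv.Perm ℕ)) = i
        rw [e2, (map_map_inv h _).2, hs]
      right_inv := by
        intro i
        change ν' ((s (ν ((s' i).map (h⁻¹ : Equiv.Perm ℕ)))).map h) = i
        rw [e1, (map_map_inv h _).1, hs'] }
  have hg : ∀ l, g (ν l) = ν' (l.map h) := e1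
  refine ⟨g, ?_, hg⟩
  intro i j
  obtain ⟨l, rfl⟩ := F.surj i
  rw [hg, F'.val, F.val, cval_map H, List.length_map]
  congr 2
  funext π
  rw [decide_eq_decide, reindex_map, ← hg]
  exact g.injective.eq_iff

/-- an isomorphism of the quotient structures is an onto correspondence -/
theorem flcN (N N' : Subgroup (Equiv.Perm ℕ)) (M M' : St C) (ν ν' : List ℕ → ℕ) (φ φ' : Y C)
    (g : Equiv.Perm ℕ) (hM : FlatN N M ν φ) (hN : FlatN N' M' ν' φ')
    (hg : ∀ i j, φ' (g i) (g j) = φ i j) :
    CorrN N N' M M' (fun l m => g (ν l) = ν' m) ∧ ∀ m, ∃ l, g (ν l) = ν' m := by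
  have key : ∀ l m, g (ν l) = ν' m → cval M l = cval M' m ∧ l.length = m.length ∧
      ∀ π, g (ν (reindex π l)) = ν' (reindex π m) := by
    intro l m h
    have h1 : ∀ j, (cval M' m, m.length, fun π => decide (ν' (reindex π m) = g j)) =
        (cval M l, l.length, fun π => decide (ν (reindex π l) = j)) := by
      intro j
      rw [← hN.val m (g j), ← hM.val l j, ← h, hg]
    refine ⟨((Prod.ext_iff.1 (h1 0)).1).symm,
      ((Prod.ext_iff.1 (Prod.ext_iff.1 (h1 0)).2).1).symm, ?_⟩
    intro π
    have h2 := congrFun (Prod.ext_iff.1 (Prod.ext_iff.1 (h1 (ν (reindex π l)))).2).2 π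
    simp only [decide_true, decide_eq_true_eq] at h2
    exact h2.symm
  refine ⟨⟨fun l m h => (key l m h).1, fun l m h => (key l m h).2.1,
    fun π l m h => (key l m h).2.2 π, ?_, ?_, ?_, ?_⟩, ?_⟩
  · intro l m l' m' h h1 h2
    rw [← (hM.ker l l').2 h1, h]
    exact (hN.ker m m').2 h2
  · intro l m m' h h'
    exact (hN.ker m m').1 (h.symm.trans h')
  · intro l l' m h h'
    exact (hM.ker l l').1 (g.injective (h.trans h'.symm))
  · intro l
    obtain ⟨m, hm⟩ := hN.surj (g (ν l))
    exact ⟨m, hm.symm⟩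
  · intro m
    obtain ⟨l, hl⟩ := hM.surj (g.symm (ν' m))
    exact ⟨l, by rw [hl, Equiv.apply_symm_apply]⟩

/-! ### lifting correspondences -/

/-- a list of pairs which is a position of the game given by `R` -/
def QN (R : List ℕ → List ℕ → Prop) (p : List (ℕ × ℕ)) : Prop :=
  R (p.map Prod.fst) (p.map Prod.snd)

lemma lift_reindexN {α : Type} (k : List α) (f : α → ℕ) (u : α → ℕ) (l : List ℕ)
    (h : ∀ a ∈ k, l[f a]? = some (u a)) : reindex (k.map f) l = k.map u := by
  induction k with
  | nil => rfl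
  | cons a k ih =>
    have ih' := ih (fun x hx => h x (List.mem_cons_of_mem _ hx))
    unfold reindex at ih' ⊢
    rw [List.map_cons, List.filterMap_cons_some (h a List.mem_cons_self), ih', List.map_cons]

variable {N N' : Subgroup (Equiv.Perm ℕ)} {M M' : St C} {R : List ℕ → List ℕ → Prop}

lemma lift_subN (H : CorrN N N' M M' R)
    {p q : List (ℕ × ℕ)} (hp : QN R p) (hq : ∀ z ∈ q, z ∈ p) : QN R q := by
  have h1 : ∀ z ∈ q, (p.map Prod.fst)[p.idxOf z]? = some z.1 := by
    intro z hz
    rw [List.getElem?_map, List.getElem?_eq_getElem (List.idxOf_lt_length_of_mem (hq z hz)),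
      List.getElem_idxOf]
    rfl
  have h2 : ∀ z ∈ q, (p.map Prod.snd)[p.idxOf z]? = some z.2 := by
    intro z hz
    rw [List.getElem?_map, List.getElem?_eq_getElem (List.idxOf_lt_length_of_mem (hq z hz)),
      List.getElem_idxOf]
    rfl
  have h3 := H.ri (q.map (fun z => p.idxOf z)) _ _ hp
  rw [lift_reindexN q _ Prod.fst _ h1, lift_reindexN q _ Prod.snd _ h2] at h3
  exact h3

lemma lift_pairN {x y z : ℕ} (h : RelN N [x, y] [z, z]) : x = y := by
  obtain ⟨n, _, hn⟩ := h
  simp only [List.map_cons, List.map_nil, List.cons.injEq, and_true] at hn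
  exact n.injective (hn.1.trans hn.2.symm)

lemma lift_patN (H : CorrN N N' M M' R)
    {p : List (ℕ × ℕ)} (hp : QN R p) {z w : ℕ × ℕ} (hz : z ∈ p) (hw : w ∈ p) :
    z.1 = w.1 ↔ z.2 = w.2 := by
  have h1 : R [z.1, w.1] [z.2, w.2] := lift_subN H hp (q := [z, w]) (by
    intro x hx
    simp only [List.mem_cons, List.not_mem_nil, or_false] at hx
    rcases hx with rfl | rfl <;> assumption)
  have h2 : R [z.1, z.1] [z.2, z.2] := lift_subN H hp (q := [z, z]) (by
    intro x hx
    simp only [List.mem_cons, List.not_mem_nil, or_false, or_self] at hx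
    rcases hx with rfl
    assumption)
  constructor
  · intro h
    rw [← h] at h1
    exact lift_pairN (H.uniq _ _ _ h1 h2)
  · intro h
    rw [← h] at h1
    exact lift_pairN (H.inj _ _ _ h1 h2)

lemma lift_forthN (H : CorrN N N' M M' R)
    {p : List (ℕ × ℕ)} (hp : QN R p) (a : ℕ) : ∃ b, QN R ((a, b) :: p) := by
  obtain ⟨m', hm'⟩ := H.tot (a :: p.map Prod.fst)
  have hl := H.len _ _ hm'
  match m', hm', hl with
  | [], _, hl => simp at hl
  | b0 :: m0, hm', hl =>
    have hl' : (p.map Prod.fst).length = m0.length := by simpa using hl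
    have h1 : QN R ((a, b0) :: (p.map Prod.fst).zip m0) := by
      unfold QN
      rw [List.map_cons, List.map_cons, List.map_fst_zip (le_of_eq hl'),
        List.map_snd_zip (le_of_eq hl'.symm)]
      exact hm'
    have h2 : QN R ((p.map Prod.fst).zip m0) :=
      lift_subN H h1 (fun z hz => List.mem_cons_of_mem _ hz)
    unfold QN at h2
    rw [List.map_fst_zip (le_of_eq hl'), List.map_snd_zip (le_of_eq hl'.symm)] at h2
    obtain ⟨n, hn, hmn⟩ := H.uniq _ _ _ h2 hp
    refine ⟨n b0, ?_⟩
    unfold QN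
    rw [List.map_cons, List.map_cons]
    exact H.sat _ _ _ _ hm' ((relN_equiv N).refl _) ⟨n, hn, by rw [List.map_cons, hmn]⟩

lemma lift_backN (H : CorrN N N' M M' R)
    (ho : ∀ m, ∃ l, R l m) {p : List (ℕ × ℕ)} (hp : QN R p) (b : ℕ) :
    ∃ a, QN R ((a, b) :: p) := by
  obtain ⟨l', hl'⟩ := ho (b :: p.map Prod.snd)
  have hl := H.len _ _ hl'
  match l', hl', hl with
  | [], _, hl => simp at hl
  | a0 :: l0, hl', hl =>
    have hl2 : l0.length = (p.map Prod.snd).length := by simpa using hl
    have h1 : QN R ((a0, b) :: l0.zip (p.map Prod.snd)) := by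
      unfold QN
      rw [List.map_cons, List.map_cons, List.map_fst_zip (le_of_eq hl2),
        List.map_snd_zip (le_of_eq hl2.symm)]
      exact hl'
    have h2 : QN R (l0.zip (p.map Prod.snd)) :=
      lift_subN H h1 (fun z hz => List.mem_cons_of_mem _ hz)
    unfold QN at h2
    rw [List.map_fst_zip (le_of_eq hl2), List.map_snd_zip (le_of_eq hl2.symm)] at h2
    obtain ⟨n, hn, hmn⟩ := H.inj _ _ _ h2 hp
    refine ⟨n a0, ?_⟩
    unfold QN
    rw [List.map_cons, List.map_cons]
    exact H.sat _ _ _ _ hl' ⟨n, hn, by rw [List.map_cons, hmn]⟩ ((relN_equiv N').refl _)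

/-- the union of a sequence of positions -/
lemma lift_unionN (H : CorrN N N' M M' R)
    {l m : List ℕ} (hlm : l.length = m.length) {F : ℕ → List (ℕ × ℕ)} (hF : ∀ n, QN R (F n))
    (h0 : F 0 = l.zip m) (hmono : ∀ n z, z ∈ F n → z ∈ F (n + 1)) {g : ℕ → ℕ}
    (hg : ∀ n, (n, g n) ∈ F (n + 1)) :
    Function.Injective g ∧ (∀ k, cval M' (k.map g) = cval M k) ∧ l.map g = m ∧
      ∀ k, R k (k.map g) := by
  have hmono' : ∀ {i j : ℕ}, i ≤ j → ∀ z, z ∈ F i → z ∈ F j := by
    intro i j hij
    induction hij with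
    | refl => exact fun z hz => hz
    | step _ ih => exact fun z hz => hmono _ z (ih z hz)
  have hbig : ∀ k : List ℕ, ∃ n, ∀ a ∈ k, (a, g a) ∈ F n := by
    intro k
    refine ⟨k.foldr max 0 + 1, ?_⟩
    intro a ha
    have : a ≤ k.foldr max 0 := by
      clear hmono' hg h0 hF hmono
      induction k with
      | nil => simp at ha
      | cons b k ih =>
        rw [List.foldr_cons]
        rcases List.mem_cons.1 ha with rfl | ha
        · exact le_max_left _ _
        · exact (ih ha).trans (le_max_right _ _)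
    exact hmono' (by omega) _ (hg a)
  have hR : ∀ k, R k (k.map g) := by
    intro k
    obtain ⟨n, hn⟩ := hbig k
    have h1 : QN R (k.map (fun a => (a, g a))) := lift_subN H (hF n) (by
      intro z hz
      obtain ⟨a, ha, rfl⟩ := List.mem_map.1 hz
      exact hn a ha)
    unfold QN at h1
    rw [List.map_map, List.map_map] at h1
    have e1 : (Prod.fst ∘ fun a => (a, g a)) = (id : ℕ → ℕ) := rfl
    have e2 : (Prod.snd ∘ fun a => (a, g a)) = g := rfl
    rw [e1, e2, List.map_id] at h1
    exact h1
  refine ⟨?_, fun k => (H.col _ _ (hR k)).symm, ?_, hR⟩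
  · intro a b hab
    obtain ⟨n, hn⟩ := hbig [a, b]
    exact (lift_patN H (hF n) (hn a (by simp)) (hn b (by simp))).2 hab
  · have h2 : ∀ z ∈ l.zip m, z.2 = g z.1 := by
      intro z hz
      obtain ⟨n, hn⟩ := hbig [z.1]
      have h3 : z ∈ F n := hmono' (Nat.zero_le n) z (by rw [h0]; exact hz)
      exact (lift_patN H (hF n) h3 (hn z.1 (by simp))).1 rfl
    calc l.map g = ((l.zip m).map Prod.fst).map g := by
            rw [List.map_fst_zip (le_of_eq hlm)]
      _ = (l.zip m).map Prod.snd := by
            rw [List.map_map]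
            exact List.map_congr_left (fun z hz => (h2 z hz).symm)
      _ = m := List.map_snd_zip (le_of_eq hlm.symm)

lemma lift_startN (H : CorrN N N' M M' R)
    {l m : List ℕ} (h : R l m) : QN R (l.zip m) := by
  have hl := H.len _ _ h
  unfold QN
  rw [List.map_fst_zip (le_of_eq hl), List.map_snd_zip (le_of_eq hl.symm)]
  exact h

/-- an onto correspondence lifts to an isomorphism -/
theorem liftN (H : CorrN N N' M M' R) (ho : ∀ m, ∃ l, R l m) (l m : List ℕ) (hlm : R l m) :
    ∃ h : Equiv.Perm ℕ, IsoH h M M' ∧ l.map h = m ∧ ∀ k, R k (k.map h) := by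
  choose f hf using fun (p : {p // QN R p}) (a : ℕ) => lift_forthN H p.2 a
  choose e he using fun (p : {p // QN R p}) (b : ℕ) => lift_backN H ho p.2 b
  let G : {p // QN R p} → ℕ → {p // QN R p} := fun p n => ⟨(n, f p n) :: p.1, hf p n⟩
  let F : ℕ → {p // QN R p} := fun n => Nat.rec ⟨l.zip m, lift_startN H hlm⟩
    (fun n p => ⟨(e (G p n) n, n) :: (G p n).1, he (G p n) n⟩) n
  have hmono : ∀ n z, z ∈ (F n).1 → z ∈ (F (n + 1)).1 :=
    fun n z hz => List.mem_cons_of_mem _ (List.mem_cons_of_mem _ hz)
  have hg : ∀ n, (n, f (F n) n) ∈ (F (n + 1)).1 :=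
    fun n => List.mem_cons_of_mem _ List.mem_cons_self
  have hg' : ∀ n, (e (G (F n) n) n, n) ∈ (F (n + 1)).1 := fun n => List.mem_cons_self
  have hmono' : ∀ {i j : ℕ}, i ≤ j → ∀ z, z ∈ (F i).1 → z ∈ (F j).1 := by
    intro i j hij
    induction hij with
    | refl => exact fun z hz => hz
    | step _ ih => exact fun z hz => hmono _ z (ih z hz)
  obtain ⟨_, hc, hm, hR⟩ := lift_unionN H (H.len _ _ hlm) (F := fun n => (F n).1)
    (fun n => (F n).2) rfl hmono hg
  let h : Equiv.Perm ℕ :=
    { toFun := fun n => f (F n) n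
      invFun := fun n => e (G (F n) n) n
      left_inv := fun n => (lift_patN H (F (max (n + 1) (f (F n) n + 1))).2
        (hmono' (le_max_right _ _) _ (hg' (f (F n) n)))
        (hmono' (le_max_left _ _) _ (hg n))).2 rfl
      right_inv := fun n => (lift_patN H (F (max (n + 1) (e (G (F n) n) n + 1))).2
        (hmono' (le_max_right _ _) _ (hg (e (G (F n) n) n)))
        (hmono' (le_max_left _ _) _ (hg' n))).1 rfl }
  refine ⟨h, ⟨?_, ?_⟩, hm, hR⟩
  · intro u v
    have h1 := congrArg Prod.snd (hc [u, v])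
    exact h1.symm
  · intro k
    exact (congrArg Prod.fst (hc k)).symm

end Pool.Agent.H41.ST
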