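import Pool.Agent.H41.ST.Sys
import Pool.Agent.H41.ST.Div2
import Pool.Agent.H41.HS.Fin
import Pool.Agent.H71.ST.Defs

/-!
# A divisible end of one structure
-/

set_option autoImplicit false

open Set Pool.Agent.TK

namespace Pool.Agent.H41.ST

open Pool.Agent.H71.VK Pool.Agent.H71.ST Pool.Agent.H41.HS

variable {C : Type} {c0 : C}

/-- a finite set which separates finitely many directions -/
theorem exists_sep {M : St C} (hV : Valid c0 M) {Wd : Set (Set ℕ → Set ℕ)} (hfin : Wd.Finite)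
    (hdir : ∀ w ∈ Wd, IsDir M w ∧ ∀ B : Set ℕ, B.Infinite → w B = ∅) :
    ∃ S0 : Set ℕ, S0.Finite ∧ ∀ S : Set ℕ, S.Finite → S0 ⊆ S → ∀ w ∈ Wd, ∀ w' ∈ Wd,
      w S = w' S → w = w' := by
  classical
  have hex : ∀ w w' : Set ℕ → Set ℕ, ∃ B : Set ℕ, B.Finite ∧
      (w ∈ Wd → w' ∈ Wd → w ≠ w' → w B ≠ w' B) := by
    intro w w'
    by_cases h : ∃ B : Set ℕ, B.Finite ∧ w B ≠ w' B
    · obtain ⟨B, h1, h2⟩ := h
      exact ⟨B, h1, fun _ _ _ => h2⟩
    · push Not at h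
      refine ⟨∅, finite_empty, fun hw hw' hne => absurd ?_ hne⟩
      funext B
      by_cases hB : B.Finite
      · exact h B hB
      · rw [(hdir w hw).2 B hB, (hdir w' hw').2 B hB]
  choose B hB1 hB2 using hex
  refine ⟨⋃ w ∈ Wd, ⋃ w' ∈ Wd, B w w', hfin.biUnion fun w _ => hfin.biUnion fun w' _ =>
    hB1 w w', ?_⟩
  intro S hS hS0 w hw w' hw' heq
  by_contra hne
  have hBS : B w w' ⊆ S := by
    refine Subset.trans ?_ hS0
    intro x hx
    exact mem_biUnion hw (mem_biUnion hw' hx)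
  have h1 := (hdir w hw).1.2 _ _ hS hBS
  have h2 := (hdir w' hw').1.2 _ _ hS hBS
  obtain ⟨x, hx⟩ := ((hdir w hw).1.1 S hS).nonempty
  have h3 : w (B w w') = w' (B w w') :=
    ((hdir w hw).1.1 _ (hB1 w w')).eq_of_inter hV ((hdir w' hw').1.1 _ (hB1 w w')) (h1 hx)
      (h2 (heq ▸ hx))
  exact hB2 w w' hw hw' hne h3

lemma setOf_cn {M : St C} {S : List ℕ} {a : ℕ} (ha : a ∉ S) (x : ℕ) :
    Cn (fun x y => M.1 x y = true) {z | z ∈ S} a x ↔ x ∈ cp M (ms S) a :=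
  ⟨fun h => cn_to_conn (M := M) (A := ms S) ha h, fun h => conn_to_cn (M := M) h⟩

/-- **A divisible end.** -/
theorem stb (hSWG : SWG C c0) (hITR : ITR C c0) (O : Set (Fl C)) (M : St C) (hV : Valid c0 M)
    (Wd : Set (Set ℕ → Set ℕ)) (hE : EndsW O M Wd) (ν : List ℕ → ℕ) (φ : Y C)
    (hF : FlatN (N1 O M) M ν φ) (hdiv : PDiv (AutY φ)) : ∃ w ∈ Wd, DivE M w := by
  classical
  obtain ⟨hE1, -, hE3, hE4⟩ := hE
  have hBF : BigFin O M := by
    intro a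
    refine (hE1.image fun w => w (ms a)).subset ?_
    rintro D ⟨h1, h2⟩
    rcases hE4 a D h1 with ⟨w, hw, h3⟩ | h3
    · exact ⟨w, hw, h3.symm⟩
    · exact absurd h3 h2
  obtain ⟨H, hH, hcl, ψ, hψ, hc⟩ := hdiv
  obtain ⟨supp, hs1, hs2⟩ := exists_supp H hcl ψ hψ hc
  obtain ⟨Z, hZK, -, hZi, hZii⟩ := exists_sys1 hSWG hITR O M hV hBF ν φ hF H hH ψ hψ hc
    supp ⟨hs1, hs2⟩
  have hsym : ∀ x y : ℕ, M.1 x y = true → M.1 y x = true := by
    intro x y hxy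
    rwa [hV.1 y x]
  obtain ⟨W, w1, -, w3⟩ := Sys.gt hsym Z
  obtain ⟨S0, hS0f, hS0⟩ := exists_sep hV hE1 fun w hw => ⟨(hE3 w hw).1, (hE3 w hw).2.2⟩
  -- the property of a direction and a finite set
  let P : (Set ℕ → Set ℕ) → Set ℕ → Prop := fun w R => ∃ H : Subgroup (Equiv.Perm ℕ),
    (∀ g ∈ H, IsoH g M M ∧ ∀ z, z ∉ w R → g z = z) ∧
    (∀ g : Equiv.Perm ℕ, (∀ E : Finset ℕ, ∃ h ∈ H, ∀ x ∈ E, h x = g x) → g ∈ H) ∧
    ∃ φ : H →* Equiv.Perm ℕ, Function.Surjective φ ∧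
      (∀ n : ℕ, ∃ E : Finset ℕ, ∀ h h' : H,
        (∀ x ∈ E, (h : Equiv.Perm ℕ) x = (h' : Equiv.Perm ℕ) x) → φ h n = φ h' n) ∧
      ∀ g : H, (∃ R' : Set ℕ, R'.Finite ∧ (∀ z ∈ R', (g : Equiv.Perm ℕ) z = z) ∧
        ∀ z ∈ w R', (g : Equiv.Perm ℕ) z = z) → φ g = 1
  have hPmono : ∀ w ∈ Wd, ∀ R R' : Set ℕ, R'.Finite → R ⊆ R' → P w R' → P w R := by
    rintro w hw R R' hR' hRR ⟨H, h1, h2, φ, h3⟩
    refine ⟨H, fun g hg => ⟨(h1 g hg).1, fun z hz => (h1 g hg).2 z fun h => ?_⟩, h2, φ, h3⟩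
    exact hz ((hE3 w hw).1.2 _ _ hR' hRR h)
  have key : ∀ R : Set ℕ, R.Finite → ∃ w ∈ Wd, P w R := by
    intro R hR
    have hfin : (R ∪ S0).Finite := hR.union hS0f
    obtain ⟨x, hxW, hx⟩ : ∃ x ∈ W, x ∉ R ∪ S0 := by
      by_contra hcon
      push Not at hcon
      exact w1 (hfin.subset hcon)
    obtain ⟨F, S, C', a, hG, haC, hRS, -⟩ := w3 (R ∪ S0) hfin x hxW hx
    have haS : a ∉ S := hG.notMem haC
    have hD : IsCp M (ms S) (cp M (ms S) a) := isCp_cp haS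
    rcases hE4 S _ hD with ⟨w, hw, hwD⟩ | hT
    swap
    · exact absurd ((hZi S a haS hT).trans hG.sub) (hG.act a haC)
    refine ⟨w, hw, ?_⟩
    have hSf : (ms S).Finite := ms_finite S
    have hRS' : R ⊆ ms S := fun z hz => hRS z (Or.inl hz)
    have hS0S : S0 ⊆ ms S := fun z hz => hRS z (Or.inr hz)
    obtain ⟨H, H1, H2, φ', H3, H4, H5⟩ := div_of_good2 hG haC {g : Equiv.Perm ℕ | IsoH g M M}
      (closed_isoH M)
      (fun p hp hfix g g1 g2 g3 => isoH_local hV (by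
        rw [hZK] at hp
        exact hp.1) haS hfix g g1 g2 g3)
    have hoff : ∀ g ∈ H, ∀ z, z ∉ cp M (ms S) a → g z = z := fun g hg z hz =>
      (H1 g hg).2 z fun h => hz ((setOf_cn haS z).1 h)
    refine ⟨H, fun g hg => ⟨(H1 g hg).1, fun z hz => hoff g hg z fun h => ?_⟩, H2, φ', H3, H4, ?_⟩
    · rw [hwD] at h
      exact hz ((hE3 w hw).1.2 _ _ hSf hRS' h)
    · rintro g ⟨R', hR'f, hR'1, hR'2⟩
      refine H5 g (hZii g (H1 g g.2).1 ?_)
      obtain ⟨R2, hR2⟩ : ∃ l : List ℕ, ms l = R' ∪ ms S := by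
        obtain ⟨l, hl⟩ := exists_list (hR'f.union hSf)
        exact ⟨l, hl.1⟩
      have hR2f : (ms R2).Finite := ms_finite R2
      have hfixS : ∀ z ∈ ms S, (g : Equiv.Perm ℕ) z = z := fun z hz =>
        hoff g g.2 z fun h => Set.disjoint_left.1 hD.disj h hz
      have hfix : ∀ z ∈ R2, (g : Equiv.Perm ℕ) z = z := by
        intro z hz
        have hz' : z ∈ R' ∪ ms S := hR2 ▸ (mem_ms.2 hz)
        rcases hz' with hz' | hz'
        · exact hR'1 z hz'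
        · exact hfixS z hz'
      refine rel_of_small hSWG hITR hV (H1 g g.2).1 hfix fun z hz => ?_
      have hzR2 : z ∉ R2 := fun h => hz (hfix z h)
      rcases hE4 R2 _ (isCp_cp (M := M) (A := ms R2) hzR2) with ⟨w', hw', h1⟩ | h1
      swap
      · exact h1
      exfalso
      have hz2 : z ∈ w' (ms R2) := by
        rw [← h1]
        exact self_mem_cp hzR2
      have hSR2 : ms S ⊆ ms R2 := by
        rw [hR2]
        exact subset_union_right
      have hR'R2 : R' ⊆ ms R2 := by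
        rw [hR2]
        exact subset_union_left
      have hz3 : z ∈ w' (ms S) := (hE3 w' hw').1.2 _ _ hR2f hSR2 hz2
      have hz4 : z ∈ w (ms S) := by
        rw [← hwD]
        by_contra hcon
        exact hz (hoff g g.2 z hcon)
      have h2 : w' (ms S) = w (ms S) :=
        ((hE3 w' hw').1.1 _ hSf).eq_of_inter hV ((hE3 w hw).1.1 _ hSf) hz3 hz4
      have h3 : w' = w := hS0 _ hSf hS0S w' hw' w hw h2
      rw [h3] at hz2
      exact hz (hR'2 z ((hE3 w hw).1.2 _ _ hR2f hR'R2 hz2))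
  -- one direction for all finite sets
  by_contra hcon
  push Not at hcon
  have hcon' : ∀ w : Set ℕ → Set ℕ, ∃ R : Set ℕ, R.Finite ∧ (w ∈ Wd → ¬ P w R) := by
    intro w
    by_cases hw : w ∈ Wd
    · have h1 := hcon w hw
      unfold DivE at h1
      push Not at h1
      obtain ⟨R, hR, h2⟩ := h1
      refine ⟨R, hR, fun _ => ?_⟩
      rintro ⟨H, h3, h4, φ', h5, h6, h7⟩
      obtain ⟨g, ⟨R', h8, h9, h10⟩, h11⟩ := h2 H h3 h4 φ' h5 h6
      exact h11 (h7 g ⟨R', h8, h9, h10⟩)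
    · exact ⟨∅, finite_empty, fun h => absurd h hw⟩
  choose R hR1 hR2 using hcon'
  obtain ⟨w, hw, hPw⟩ := key (⋃ w ∈ Wd, R w) (hE1.biUnion fun w _ => hR1 w)
  exact hR2 w hw (hPmono w hw _ _ (hE1.biUnion fun w _ => hR1 w)
    (fun x hx => mem_biUnion hw hx) hPw)

end Pool.Agent.H41.ST
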