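import Pool.Agent.H41.ST.Loc
import Pool.Agent.H71.VK.HSK

/-!
# The system of pairs for the group generated by swaps and local automorphisms
-/

set_option autoImplicit false

open Set Topology Filter Pool.Agent.TK

namespace Pool.Agent.H41.ST

open Pool.Agent.H71.VK Pool.Agent.H94.VK Pool.Agent.H71

variable {C : Type} {c0 : C}

/-- an automorphism fixing `R` pointwise can be imitated at a point of a component of known type -/
theorem exists_move (hSWG : SWG C c0) (hITR : ITR C c0) {T : Set (Fl C)} {M : St C}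
    (hV : Valid c0 M) {k : Equiv.Perm ℕ} (hk : IsoH k M M) {R : List ℕ} (hkR : ∀ x ∈ R, k x = x)
    {y : ℕ} (hy : y ∉ R) (hT : InT T M R (cp M (ms R) y)) :
    ∃ m ∈ N1 T M, m y = k y ∧ (∀ x ∈ R, m x = x) ∧ (∀ x, k x = x → m x = x) ∧
      ∀ x, m x ≠ x → x ∉ R ∧ InT T M R (cp M (ms R) x) := by
  classical
  have hD : IsCp M (ms R) (cp M (ms R) y) := isCp_cp hy
  have hyD : y ∈ cp M (ms R) y := self_mem_cp hy
  have himg : k '' ms R = ms R := by
    ext x
    constructor
    · rintro ⟨z, hz, rfl⟩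
      rw [hkR z hz]
      exact hz
    · intro hx
      exact ⟨x, hx, hkR x hx⟩
  have hD1 : IsCp M (ms R) (k '' cp M (ms R) y) := by
    have h1 := (hITR k M M hk).1 _ _ hD
    rwa [himg] at h1
  set D := cp M (ms R) y with hDdef
  have hdisj := Set.disjoint_left.1 hD.disj
  have hdisj1 := Set.disjoint_left.1 hD1.disj
  by_cases heq : k '' D = D
  · have hFI : FIh k M R D M R D := isoH_fih hk hkR heq
    obtain ⟨f, f1, f2, f3⟩ := exists_la hV hD hFI
    refine ⟨f, Subgroup.subset_closure (Or.inr ⟨f1, R, D, hD, hT, f3⟩), f2 y hyD,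
      fun x hx => f3 x fun h => hdisj h hx, fun x hx => ?_, fun x hx => ?_⟩
    · by_cases h : x ∈ D
      · rw [f2 x h, hx]
      · exact f3 x h
    · have hxD : x ∈ D := by
        by_contra hcon
        exact hx (f3 x hcon)
      refine ⟨fun h => hdisj hxD h, ?_⟩
      rw [cp_eq hV hxD]
      exact hT
  · have hFI : FIh k M R D M R (k '' D) := isoH_fih hk hkR rfl
    obtain ⟨f, f1, f2, f3, f4, f5⟩ := hSWG M hV R _ _ k hD hD1 (Ne.symm heq) hFI
    have hdd : ∀ x, x ∈ D → x ∉ k '' D := fun x h h' =>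
      heq (hD1.eq_of_inter hV hD h' h)
    refine ⟨f, Subgroup.subset_closure (Or.inl
      ⟨f1, f2, R, _, _, hD, hD1, Ne.symm heq, hT, f4, f5⟩), f3 y hyD,
      fun x hx => f5 x (fun h => hdisj h hx) (fun h => hdisj1 h hx), fun x hx => ?_,
      fun x hx => ?_⟩
    · refine f5 x (fun h => hdd x h ⟨x, h, hx⟩) ?_
      rintro ⟨z, hz, hzx⟩
      have h1 : z = x := k.injective (hzx.trans hx.symm)
      rw [h1] at hz
      exact hdd x hz ⟨x, hz, hx⟩
    · by_cases hxD : x ∈ D
      · refine ⟨fun h => hdisj hxD h, ?_⟩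
        rw [cp_eq hV hxD]
        exact hT
      · have hxD1 : x ∈ k '' D := by
          by_contra hcon
          exact hx (f5 x hxD hcon)
        refine ⟨fun h => hdisj1 hxD1 h, ?_⟩
        have h2 : cp M (ms R) x = k '' D := (hD1.eq_cp hV hxD1).symm
        rw [h2]
        obtain ⟨t, ht, h3⟩ := hT
        exact ⟨t, ht, (FI.symm ⟨k, hFI⟩).trans h3⟩

/-- an automorphism which moves only points of components of known type acts trivially -/
theorem rel_of_small (hSWG : SWG C c0) (hITR : ITR C c0) {T : Set (Fl C)} {M : St C}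
    (hV : Valid c0 M) {g : Equiv.Perm ℕ} (hg : IsoH g M M) {R : List ℕ}
    (hgR : ∀ x ∈ R, g x = x) (hmv : ∀ x, g x ≠ x → InT T M R (cp M (ms R) x)) (l : List ℕ) :
    RelN (N1 T M) l (l.map g) := by
  have key : ∀ l : List ℕ, ∃ n ∈ N1 T M, (∀ x ∈ R, n x = x) ∧
      (∀ x, n x ≠ x → InT T M R (cp M (ms R) x)) ∧ ∀ x ∈ l, n x = g x := by
    intro l
    induction l with
    | nil => exact ⟨1, one_mem _, fun _ _ => rfl, fun x hx => absurd rfl hx, by simp⟩
    | cons y l ih =>
      obtain ⟨n, hn, hnR, hnm, hnl⟩ := ih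
      by_cases hyn : n y = g y
      · refine ⟨n, hn, hnR, hnm, ?_⟩
        intro x hx
        rcases List.mem_cons.1 hx with rfl | hx
        · exact hyn
        · exact hnl x hx
      · set k : Equiv.Perm ℕ := n⁻¹ * g with hk
        have hkk : ∀ x, k x = n.symm (g x) := fun _ => rfl
        have hkI : IsoH k M M := (AutG M).mul_mem ((AutG M).inv_mem (n1_le T M hn)) hg
        have hkR : ∀ x ∈ R, k x = x := by
          intro x hx
          rw [hkk, Equiv.symm_apply_eq, hgR x hx, hnR x hx]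
        have hyT : InT T M R (cp M (ms R) y) := by
          by_cases h1 : g y = y
          · exact hnm y fun h2 => hyn (h2.trans h1.symm)
          · exact hmv y h1
        have hyR : y ∉ R := fun h => hyn ((hnR y h).trans (hgR y h).symm)
        obtain ⟨m, m1, m2, m3, m4, m5⟩ := exists_move hSWG hITR hV hkI hkR hyR hyT
        refine ⟨n * m, mul_mem hn m1, fun x hx => ?_, fun x hx => ?_, fun x hx => ?_⟩
        · change n (m x) = x
          rw [m3 x hx, hnR x hx]
        · by_cases h1 : m x = x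
          · refine hnm x fun h2 => hx ?_
            change n (m x) = x
            rw [h1, h2]
          · exact (m5 x h1).2
        · change n (m x) = g x
          rcases List.mem_cons.1 hx with rfl | hx
          · rw [m2, hkk, Equiv.apply_symm_apply]
          · have h1 : k x = x := by
              rw [hkk, Equiv.symm_apply_eq, hnl x hx]
            rw [m4 x h1, hnl x hx]
  obtain ⟨n, hn, -, -, h⟩ := key l
  exact ⟨n, hn, List.map_congr_left h⟩

/-- all the facts needed for the group theorem -/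
theorem exists_sys1 (hSWG : SWG C c0)
    (hITR : ITR C c0) (T : Set (Fl C)) (M : St C) (hV : Valid c0 M) (hBF : BigFin T M)
    (ν : List ℕ → ℕ) (φ : Y C) (hF : FlatN (N1 T M) M ν φ) (H : Subgroup (Equiv.Perm ℕ))
    (hH : H ≤ AutY φ) (ψ : H →* Equiv.Perm ℕ) (hψ : Function.Surjective ψ)
    (hcont : ∀ n m, IsOpen[@instTopologicalSpaceSubtype _ _ permTop] {h : H | ψ h n = m})
    (supp : ℕ → Finset ℕ) (hs : SuppD H ψ supp) :
    ∃ Z : Pool.Agent.H41.HS.Sys (fun x y => M.1 x y = true),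
      Z.K = kGroup M ν H ψ ∧ (∀ a, Z.sup a = supp (ν a)) ∧
      (∀ (S : List ℕ) (y : ℕ), y ∉ S → InT T M S (cp M (ms S) y) → Z.sup (y :: S) ⊆ Z.sup S) ∧
      ∀ g : Equiv.Perm ℕ, IsoH g M M → (∀ l, RelN (N1 T M) l (l.map g)) → (g, 1) ∈ Z.K := by
  classical
  have haut : ∀ θ : H, ∀ i j, φ ((θ : Equiv.Perm ℕ) i) ((θ : Equiv.Perm ℕ) j) = φ i j :=
    fun θ => hH θ.2
  have hcorr : ∀ θ : H, CorrN (N1 T M) (N1 T M) M M
      (fun l m => (θ : Equiv.Perm ℕ) (ν l) = ν m) ∧
      ∀ m, ∃ l, (θ : Equiv.Perm ℕ) (ν l) = ν m := fun θ =>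
    flcN _ _ M M ν ν φ φ θ hF hF (haut θ)
  have hmono : ∀ a b : List ℕ, a ⊆ b → supp (ν a) ⊆ supp (ν b) := by
    intro a b hab
    obtain ⟨π, hπ⟩ := exists_reindex hab
    refine hs.min _ _ fun σ hσ => ?_
    obtain ⟨θ, h1, h2⟩ := hs.surj _ σ hσ
    refine ⟨θ, ?_, h2⟩
    have h3 := (hcorr θ).1.ri π b b h1
    rwa [hπ] at h3
  -- lifting with prescribed stabiliser
  have hlift : ∀ (θ : H) (a : List ℕ), (θ : Equiv.Perm ℕ) (ν a) = ν a →
      ∃ h : Equiv.Perm ℕ, IsoH h M M ∧ (∀ l : List ℕ, (θ : Equiv.Perm ℕ) (ν l) = ν (l.map h)) ∧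
        ∀ x ∈ a, h x = x := by
    intro θ a ha
    obtain ⟨h, h1, h2, h3⟩ := liftN (hcorr θ).1 (hcorr θ).2 a a ha
    refine ⟨h, h1, h3, ?_⟩
    have h4 : a.map h = a.map id := by rw [h2, List.map_id]
    exact List.map_inj_left.1 h4
  have hnil : supp (ν []) = ∅ := by
    refine Finset.subset_empty.1 (hs.min _ _ fun σ _ => ?_)
    obtain ⟨θ, hθ⟩ := hψ σ
    refine ⟨θ, ?_, hθ⟩
    obtain ⟨m, hm⟩ := (hcorr θ).1.tot []
    have h1 := (hcorr θ).1.len _ _ hm
    rw [List.length_nil, eq_comm, List.length_eq_zero_iff] at h1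
    rwa [h1] at hm
  have hunb : ∃ a, supp (ν a) ≠ ∅ := by
    by_contra hcon
    push Not at hcon
    -- a sequence converging to the identity
    have hex : ∀ n : ℕ, ∃ θ : H, (∀ i < n, (θ : Equiv.Perm ℕ) i = i) ∧ ψ θ 0 ≠ 0 := by
      intro n
      have hl : ∀ i, ∃ l, ν l = i := hF.surj
      choose l hl using hl
      obtain ⟨θ, h1, h2⟩ := hs.surj (ν ((List.range n).flatMap l)) (Equiv.swap 0 1) (by
        rw [hcon]; simp)
      refine ⟨θ, ?_, ?_⟩
      · intro i hi
        have h3 : l i ⊆ (List.range n).flatMap l := by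
          intro x hx
          exact List.mem_flatMap.2 ⟨i, List.mem_range.2 hi, hx⟩
        obtain ⟨π, hπ⟩ := exists_reindex h3
        have h4 := (hcorr θ).1.ri π _ _ h1
        rw [hπ, hl] at h4
        exact h4
      · rw [h2, Equiv.swap_apply_left]
        exact one_ne_zero
    choose θ hθ1 hθ2 using hex
    let := permTop
    have ht : Tendsto (fun n => ((θ n : H) : Equiv.Perm ℕ)) atTop (𝓝 1) := by
      refine tendsto_perm (fun a => ?_) (fun a => ?_)
      · filter_upwards [eventually_gt_atTop a] with n hn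
        exact hθ1 n a hn
      · filter_upwards [eventually_gt_atTop a] with n hn
        rw [Equiv.symm_apply_eq]
        exact (hθ1 n a hn).symm
    have ht' : Tendsto θ atTop (𝓝 (1 : H)) := by
      rw [tendsto_subtype_rng]
      exact ht
    have hev : ∀ᶠ n in atTop, ψ (θ n) 0 = 0 :=
      ht'.eventually ((hcont 0 0).mem_nhds (by
        change ψ 1 0 = 0
        rw [map_one]
        rfl))
    obtain ⟨n, hn⟩ := hev.exists
    exact hθ2 n hn
  have hadj : ∀ p ∈ kGroup M ν H ψ, ∀ x y, M.1 x y = true → M.1 (p.1 x) (p.1 y) = true := by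
    intro p hp x y hxy
    rw [← hp.1.1]
    exact hxy
  have hper : ∀ (a : List ℕ) (y : ℕ), y ∉ a → ∀ p ∈ kGroup M ν H ψ, (∀ x ∈ a, p.1 x = x) →
      ∃ k : ℕ, 0 < k ∧ ∃ h, (h, p.2 ^ k) ∈ kGroup M ν H ψ ∧ (∀ x ∈ a, h x = x) ∧
        Pool.Agent.H41.HS.Cn (fun x y => M.1 x y = true) {x | x ∈ a} y (h y) := by
    intro a y hy p hp hpa
    have hD : IsCp M (ms a) (cp M (ms a) y) := isCp_cp hy
    have hyD : y ∈ cp M (ms a) y := self_mem_cp hy
    have hfix : ∀ k : ℕ, ∀ x ∈ a, (p.1 ^ k : Equiv.Perm ℕ) x = x := by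
      intro k x hx
      induction k with
      | zero => rfl
      | succ k ih =>
        rw [pow_succ]
        change (p.1 ^ k : Equiv.Perm ℕ) (p.1 x) = x
        rw [hpa x hx, ih]
    have hpow : ∀ k : ℕ, (p.1 ^ k, p.2 ^ k) ∈ kGroup M ν H ψ := fun k =>
      (kGroup M ν H ψ).pow_mem hp k
    have himg : ∀ k : ℕ, (p.1 ^ k : Equiv.Perm ℕ) '' ms a = ms a := by
      intro k
      ext x
      constructor
      · rintro ⟨z, hz, rfl⟩
        rw [hfix k z hz]
        exact hz
      · intro hx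
        exact ⟨x, hx, hfix k x hx⟩
    have hcomp : ∀ k : ℕ, IsCp M (ms a) ((p.1 ^ k : Equiv.Perm ℕ) '' cp M (ms a) y) := by
      intro k
      have h1 := (hITR (p.1 ^ k) M M (hpow k).1).1 _ _ hD
      rwa [himg k] at h1
    by_cases hT : InT T M a (cp M (ms a) y)
    · refine ⟨1, one_pos, ?_⟩
      rw [pow_one]
      obtain ⟨m, m1, m2, m3, m4, m5⟩ := exists_move hSWG hITR hV hp.1 hpa hy hT
      refine ⟨m⁻¹ * p.1, ?_, ?_, conn_to_cn (M := M) ?_⟩
      · obtain ⟨hp1, θ, h1, h2⟩ := hp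
        refine ⟨(AutG M).mul_mem ((AutG M).inv_mem (n1_le T M m1)) hp1, θ, h1, fun l => ?_⟩
        rw [h2, hF.ker]
        refine ⟨m⁻¹, inv_mem m1, ?_⟩
        rw [List.map_map]
        rfl
      · intro x hx
        change m.symm (p.1 x) = x
        rw [Equiv.symm_apply_eq, hpa x hx, m3 x hx]
      · change m.symm (p.1 y) ∈ cp M (ms a) y
        have h1 : m.symm (p.1 y) = y := by rw [Equiv.symm_apply_eq, m2]
        rw [h1]
        exact hyD
    · obtain ⟨k, hk, hkD⟩ := exists_pow_image p.1 (cp M (ms a) y) _ (hBF a) (by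
        intro k
        refine ⟨hcomp k, ?_⟩
        rintro ⟨t, ht, h1⟩
        apply hT
        exact ⟨t, ht, FI.trans ⟨_, isoH_fih (hpow k).1 (hfix k) rfl⟩ h1⟩)
      refine ⟨k, hk, p.1 ^ k, hpow k, hfix k, conn_to_cn (M := M) ?_⟩
      have h2 : (p.1 ^ k : Equiv.Perm ℕ) y ∈ (p.1 ^ k : Equiv.Perm ℕ) '' cp M (ms a) y :=
        ⟨y, hyD, rfl⟩
      rw [hkD] at h2
      exact h2
  refine ⟨{ K := kGroup M ν H ψ, sup := fun a => supp (ν a), adj := hadj, eqv := ?_,
            mono := hmono, surj := ?_, nil := hnil, unb := hunb, per := hper }, rfl,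
          fun _ => rfl, ?_, ?_⟩
  · rintro p ⟨hp, θ, h1, h2⟩ a n
    rw [hs.eqv θ (ν a) n, h1, h2]
  · intro a σ hσ
    obtain ⟨θ, h1, h2⟩ := hs.surj _ σ hσ
    obtain ⟨h, h3, h4, h5⟩ := hlift θ a h1
    exact ⟨h, ⟨h3, θ, h2, h4⟩, h5⟩
  · intro S y hy hT
    change supp (ν (y :: S)) ⊆ supp (ν S)
    refine hs.min _ _ fun σ hσ => ?_
    obtain ⟨θ, h1, h2⟩ := hs.surj _ σ hσ
    refine ⟨θ, ?_, h2⟩
    obtain ⟨h, h3, h4, h5⟩ := hlift θ S h1
    rw [h4, hF.ker]
    obtain ⟨m, m1, m2, m3, m4, m5⟩ := exists_move hSWG hITR hV h3 h5 hy hT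
    refine (relN_equiv _).symm ⟨m, m1, ?_⟩
    refine List.map_congr_left fun x hx => ?_
    rcases List.mem_cons.1 hx with rfl | hx
    · exact m2
    · rw [m3 x hx, h5 x hx]
  · intro g hg hR
    refine ⟨hg, 1, map_one _, fun l => ?_⟩
    change ν l = ν (l.map g)
    rw [hF.ker]
    exact hR l

end Pool.Agent.H41.ST
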